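import Pool.Agent.Y860.SB.Bin

/-!
# All order types of well-ordered shift orbits of base `k` expansions, for every base `k ≥ 2`

For a sequence `d` of digits in `{0, ..., k - 1}` put `a_i = ∑ d (i + n) / k ^ (n + 1)` and
`A(d) = {a_i : i ≥ 0}`.  `HasType s α` says that the set `s` of reals is well-ordered with order
type `α`.  For `k = 2` the set `A(d)` is the set `A(b)` of the problem.

The order types of the well-ordered sets `A(d)` in base `k` are exactly the finite ordinals
`n ≥ 1` and the countable ordinals `ω ^ (μ + 1) * p + ρ` with `μ ≥ 1`, `p ≥ 1` and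
`ρ < ω ^ (μ + 1)`, where in base `2` one needs `ρ = 0` if `p = 1`.

New compared with the binary classification: every base, and the sequences with blocks
`1 ⋯ 1 0 2 ⋯ 2` which show that the exception `p = 1`, `ρ ≠ 0` is special for base `2`.
-/

set_option autoImplicit false

namespace Pool.Agent.Results.MP_c20855_lc.AllBases

open Ordinal

/-- `a_i`, the real number with base `k` digits `d i, d (i + 1), ...` -/
noncomputable def value (k : ℕ) (d : ℕ → ℕ) (i : ℕ) : ℝ :=
  ∑' n : ℕ, (d (i + n) : ℝ) / (k : ℝ) ^ (n + 1)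

/-- the set `s` of reals is well-ordered with order type `α` -/
def HasType (s : Set ℝ) (α : Ordinal.{0}) : Prop :=
  ∃ _ : IsWellOrder s (fun x y => x < y), type (fun x y : s => x < y) = α

/-- **The order types of well-ordered shift orbits in base `k`, for every `k ≥ 2`.** -/
theorem result (k : ℕ) (hk : 2 ≤ k) (α : Ordinal.{0}) :
    (∃ d : ℕ → ℕ, (∀ n, d n < k) ∧ HasType (Set.range (value k d)) α) ↔
      (∃ n : ℕ, 1 ≤ n ∧ α = (n : Ordinal.{0})) ∨
      ∃ (μ : Ordinal.{0}) (p : ℕ) (ρ : Ordinal.{0}), 1 ≤ μ ∧ μ.card ≤ Cardinal.aleph0 ∧ 1 ≤ p ∧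
        ρ < ω ^ (μ + 1) ∧ (k = 2 → p = 1 → ρ = 0) ∧
        α = ω ^ (μ + 1) * (p : Ordinal.{0}) + ρ :=
  Pool.Agent.Y860.SB.classify hk α

end Pool.Agent.Results.MP_c20855_lc.AllBases
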